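import Pool.Agent.H60.BV.Null

/-!
# Closures of domains with quasiminimal surface are BV-extension sets

In a PI-space, let `Ω` be a bounded open set of locally finite perimeter whose surface is locally
`K`-quasiminimal. Then the closure of `Ω` is a `BV`-extension set (the extension by zero works).
-/

set_option autoImplicit false

open MeasureTheory Metric Set Filter Topology
open scoped ENNReal NNReal

namespace Pool.Agent.Results.MP_2a341d_an.ClosureExtension

open Pool.Agent.H60.BV

/-- The closure of a bounded open set (in particular of a bounded domain) of locally finite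
perimeter with locally quasiminimal surface in a PI-space is a `BV`-extension set. -/
theorem result {X : Type*} [MetricSpace X] [MeasurableSpace X] [BorelSpace X] (m : Measure X)
    (hX : IsPISpace m) (K : ℝ≥0) (Ω : Set X) (hΩ : IsOpen Ω) (hb : Bornology.IsBounded Ω)
    (hf : LocallyFinitePerimeter m Ω) (hq : LocallyQuasiminimal m K Ω) :
    IsBVExtensionSet m (closure Ω) := by
  have hcs : CompleteSpace X := hX.complete
  have hss : TopologicalSpace.SeparableSpace X := hX.separable
  have hsc : SecondCountableTopology X := UniformSpace.secondCountable_of_separable X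
  have hfm : IsFiniteMeasureOnCompacts m := ⟨fun _ hK => hX.finite _ hK.isBounded⟩
  have hlf : IsLocallyFiniteMeasure m :=
    ⟨fun x => ⟨ball x 1, ball_mem_nhds x one_pos, hX.finite _ isBounded_ball⟩⟩
  have hsf : SFinite m := inferInstance
  obtain ⟨C, hC⟩ := hX.doubling
  obtain ⟨CP, lam, hCP, hlam, hP⟩ := hX.poincare
  rcases eq_or_ne m 0 with hm | hm
  · -- the zero measure
    subst hm
    have h0 : ∀ (f : X → ℝ) (A : Set X), tvOpen (0 : Measure X) f A = 0 := by
      intro f A
      refine le_antisymm ?_ zero_le
      refine (tvOpen_le_liminf (u := fun _ _ => 0) (fun _ =>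
        (LocallyLipschitz.const (0 : ℝ)).locallyLipschitzOn) (fun x _ => ⟨univ, univ_mem, ?_⟩)).trans ?_
      · simp
      · simp
    refine ⟨isClosed_closure.measurableSet, 0, fun f _ => ⟨f, ⟨?_, ?_⟩, ?_, ?_⟩⟩
    · simp
    · rw [Measure.restrict_univ, tv_eq isOpen_univ, h0]
      exact ENNReal.zero_lt_top
    · exact ae_eq_refl _
    · unfold normBV
      rw [Measure.restrict_univ, tv_eq isOpen_univ, h0]
      simp
  · -- the doubling constant and positivity of the measure of balls
    have hd : Doubling m (max C 2) := by
      have hdb : ∀ (x : X) (r : ℝ), 0 < r → m (ball x (2 * r)) ≤ (max C 2 : ℝ≥0) * m (ball x r) :=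
        fun x r hr => (hC x r hr).trans (by gcongr; exact le_max_left _ _)
      refine fun x r hr => ⟨?_, hdb x r hr⟩
      by_contra h0
      have h0 : m (ball x r) = 0 := le_antisymm (not_lt.1 h0) zero_le
      have h1 : ∀ n : ℕ, m (ball x (2 ^ n * r)) = 0 := by
        intro n
        induction n with
        | zero => simpa using h0
        | succ n ih =>
          have h2 := hdb x (2 ^ n * r) (by positivity)
          rw [ih, mul_zero] at h2
          have h3 : 2 * (2 ^ n * r) = 2 ^ (n + 1) * r := by ring
          rw [h3] at h2
          exact le_antisymm h2 zero_le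
      refine hm (Measure.measure_univ_eq_zero.1 ?_)
      have h2 : (univ : Set X) = ⋃ n : ℕ, ball x (2 ^ n * r) := by
        refine (eq_univ_of_forall fun y => ?_).symm
        obtain ⟨n, hn⟩ := pow_unbounded_of_one_lt (dist y x / r) (one_lt_two (α := ℝ))
        rw [div_lt_iff₀ hr] at hn
        exact mem_iUnion.2 ⟨n, hn⟩
      rw [h2]
      exact measure_iUnion_null h1
    have hprop : ProperSpace X := properSpace hd hX.finite
    have hnull : m (closure Ω \ Ω) = 0 :=
      null_boundary hΩ hCP hlam hP (le_max_right C 2) hd hq hf
    exact extension_of_null hΩ hb.isCompact_closure hq hf hnull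

end Pool.Agent.Results.MP_2a341d_an.ClosureExtension
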